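import Pool.Agent.Helper73.HM.St

/-! # HM module PW: the power set of `κ₀` in HOD is small -/

namespace Pool.Agent.Helper29.HM.PW

open Ordinal Cardinal ZFSet Order Pool.Agent.Helper73.HODC Pool.Agent.Helper73.HE
open Pool.Agent.Helper73.HM

/-- the enumeration of the ordinal definable subsets of `κ` in the canonical order -/
def H (κ : Ordinal.{0}) (ζ : Ordinal.{0}) : Set Ordinal.{0} :=
  {a | ∃ B, LeastOD κ (fun B => ∀ η : Set.Iio ζ, st B ≠ H κ η.1) B ∧ a ∈ st B}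
termination_by ζ
decreasing_by exact η.2

/-- `x` is the set of number `ζ` -/
def R (κ : Ordinal.{0}) (x : ZFSet.{0}) (ζ : Ordinal.{0}) : Prop :=
  LeastOD κ (fun B => ∀ η < ζ, st B ≠ H κ η) x

theorem mem_H {κ ζ a : Ordinal.{0}} : a ∈ H κ ζ ↔ ∃ B, R κ B ζ ∧ a ∈ st B := by
  have h1 : (fun B => ∀ η : Set.Iio ζ, st B ≠ H κ η.1) =
      (fun B : ZFSet.{0} => ∀ η < ζ, st B ≠ H κ η) := by
    funext B
    exact propext ⟨fun h η hη => h ⟨η, hη⟩, fun h η => h η.1 η.2⟩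
  rw [H, h1]
  rfl

theorem H_eq (h1 : StLE) {κ ζ : Ordinal.{0}} {x : ZFSet.{0}} (h : R κ x ζ) : H κ ζ = st x := by
  ext a
  rw [mem_H]
  constructor
  · rintro ⟨B, hB, ha⟩
    rwa [h1.1 _ _ _ _ hB h] at ha
  · intro ha
    exact ⟨x, h, ha⟩

theorem R_unique (h1 : StLE) {κ ζ ζ' : Ordinal.{0}} {x : ZFSet.{0}} (h : R κ x ζ)
    (h' : R κ x ζ') : ζ = ζ' := by
  rcases lt_trichotomy ζ ζ' with h3 | h3 | h3
  · exact absurd (H_eq h1 h).symm (h'.1.2.2 ζ h3)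
  · exact h3
  · exact absurd (H_eq h1 h').symm (h.1.2.2 ζ' h3)

theorem dp_st_ne {T : Ordinal.{0} → (ℕ → ZFSet.{0}) → Set Ordinal.{0}}
    (h : DP (fun v => (v 0).rank ∈ T (v 1).rank (fun n => v (n + 2)))) :
    DP (fun v => st (v 0) ≠ T (v 1).rank (fun n => v (n + 2))) := by
  have h1 : DP (fun v => ∀ a : Ordinal.{0}, a ∈ st (v 0) ↔
      a ∈ T (v 1).rank (fun n => v (n + 2))) := by
    refine DP.allO (Q := fun a v => a ∈ st (v 0) ↔ a ∈ T (v 1).rank (fun n => v (n + 2))) ?_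
    exact (DP.st 0 1).iff (h.rename (fun n => if n = 0 then 0 else n + 1))
  refine h1.not.congr fun v => not_congr ?_
  exact Set.ext_iff

theorem dp_H (h2 : StLD) (h3 : StRE) (κ : Ordinal.{0}) :
    DP (fun v => (v 0).rank ∈ H κ (v 1).rank) := by
  refine h3 κ (fun _ ζ => H κ ζ) (fun ζ W a _ =>
    ∃ B, LeastOD κ (fun B => ∀ η < ζ, st B ≠ sec W η) B ∧ a ∈ st B) ?_ ?_ ?_
  · refine DP.ex (Q := fun B v => LeastOD κ (fun B => ∀ η < (v 0).rank, st B ≠ sec (v 1) η) B ∧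
      (v 2).rank ∈ st B) ?_
    refine DP.and ?_ (DP.st 3 0)
    refine h2 κ (fun x v => ∀ η < (v 1).rank, st x ≠ sec (v 2) η) ?_ 0
    refine DP.allO (Q := fun η v => η < (v 2).rank → st (v 0) ≠ sec (v 3) η) ?_
    refine (DP.rank_lt 0 3).imp ?_
    have h4 := dp_st_ne (T := fun η v => sec (v 0) η) (Pool.Agent.Helper73.HE.DP.sec 0 2 1)
    exact h4.rename (fun n => if n = 0 then 1 else if n = 1 then 0 else 4)
  · intro v ζ a ha
    obtain ⟨B, hB, ha⟩ := mem_H.1 ha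
    exact lt_of_mem_st hB.1.2.1 ha
  · intro v ζ W hW a
    have h1 : (fun B : ZFSet.{0} => ∀ η < ζ, st B ≠ sec W η) =
        (fun B : ZFSet.{0} => ∀ η < ζ, st B ≠ H κ η) := by
      funext B
      refine propext (forall_congr' fun η => forall_congr' fun hη => ?_)
      rw [hW η hη]
    rw [mem_H, h1]
    rfl

theorem dp_R (h2 : StLD) (h3 : StRE) (κ : Ordinal.{0}) (i j : ℕ) :
    DP (fun v => R κ (v i) (v j).rank) := by
  refine h2 κ (fun x v => ∀ η < (v j).rank, st x ≠ H κ η) ?_ i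
  refine DP.allO (Q := fun η v => η < (v (j + 1)).rank → st (v 0) ≠ H κ η) ?_
  refine (DP.rank_lt 0 (j + 2)).imp ?_
  have h4 := dp_st_ne (T := fun η _ => H κ η) (dp_H h2 h3 κ)
  exact h4.rename (fun n => if n = 0 then 1 else 0)

theorem R_lt_card (h1 : StLE) {κ₀ c : Cardinal.{0}} (hc : (2 : Cardinal.{0}) ^ κ₀ < c) :
    ∃ ζ < c.ord, ¬ ∃ x, R κ₀.ord x ζ := by
  by_contra hcon
  push Not at hcon
  choose g hg using hcon
  let F : c.ord.ToType → Set κ₀.ord.ToType := fun x =>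
    {y | (ToType.mk.symm y).1 ∈ H κ₀.ord (ToType.mk.symm x).1}
  have hF : Function.Injective F := by
    intro x x' hxx
    set ζ := (ToType.mk.symm x) with hζ
    set ζ' := (ToType.mk.symm x') with hζ'
    have hR := hg ζ.1 ζ.2
    have hR' := hg ζ'.1 ζ'.2
    have h5 : g ζ.1 ζ.2 = g ζ'.1 ζ'.2 := by
      refine ext_st hR.1.2.1 hR'.1.2.1 fun a => ?_
      rw [← H_eq h1 hR, ← H_eq h1 hR']
      have key : ∀ (ξ : Set.Iio c.ord), a ∈ H κ₀.ord ξ.1 → a < κ₀.ord := by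
        intro ξ ha
        obtain ⟨B, hB, ha⟩ := mem_H.1 ha
        exact lt_of_mem_st hB.1.2.1 ha
      have h6 : ∀ y : κ₀.ord.ToType, (ToType.mk.symm y).1 ∈ H κ₀.ord ζ.1 ↔
          (ToType.mk.symm y).1 ∈ H κ₀.ord ζ'.1 := by
        intro y
        have h7 : y ∈ F x ↔ y ∈ F x' := by rw [hxx]
        exact h7
      constructor
      · intro ha
        have h8 := h6 (ToType.mk ⟨a, key _ ha⟩)
        simp only [OrderIso.symm_apply_apply] at h8
        exact h8.1 ha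
      · intro ha
        have h8 := h6 (ToType.mk ⟨a, key _ ha⟩)
        simp only [OrderIso.symm_apply_apply] at h8
        exact h8.2 ha
    have h6 : ζ.1 = ζ'.1 := by
      rw [← h5] at hR'
      exact R_unique h1 hR hR'
    have h7 : ζ = ζ' := Subtype.ext h6
    exact ToType.mk.symm.injective h7
  have h5 := Cardinal.mk_le_of_injective hF
  rw [Cardinal.mk_set] at h5
  rw [Cardinal.mk_toType, Cardinal.mk_toType, Cardinal.card_ord, Cardinal.card_ord] at h5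
  exact absurd h5 (not_le.2 hc)

theorem pw (h1 : StLE) (h2 : StLD) (h3 : StRE) (_h4 : StHP) : StPW := by
  intro κ₀ c hc
  set κ := κ₀.ord with hκ
  obtain ⟨β, hβ, hβm⟩ : ∃ β, (β < c.ord ∧ ¬ ∃ x, R κ x β) ∧
      ∀ ζ < β, ∃ x, R κ x ζ := by
    obtain ⟨ζ, hζ, hζ'⟩ := R_lt_card h1 hc
    have hne : {ζ | ζ < c.ord ∧ ¬ ∃ x, R κ x ζ}.Nonempty := ⟨ζ, hζ, hζ'⟩
    refine ⟨sInf {ζ | ζ < c.ord ∧ ¬ ∃ x, R κ x ζ}, csInf_mem hne, fun ξ hξ => ?_⟩
    by_contra h5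
    exact notMem_of_lt_csInf' hξ ⟨hξ.trans (csInf_mem hne).1, h5⟩
  have hex : ∀ x ∈ hodPow κ, ∃ ζ < β, R κ x ζ := by
    intro x hx
    obtain ⟨hx1, hx2⟩ := mem_hodPow.1 hx
    by_contra hcon
    push Not at hcon
    apply hβ.2
    apply h1.2
    refine ⟨x, hx2, hx1, fun η hη h5 => ?_⟩
    obtain ⟨y, hy⟩ := hβm η hη
    rw [H_eq h1 hy] at h5
    have h6 : x = y := ext_st hx1 hy.1.2.1 fun a => by rw [h5]
    rw [← h6] at hy
    exact hcon η hη hy
  have he : ∀ x, ∀ ζ, R κ x ζ → sInf {ζ | R κ x ζ} = ζ := by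
    intro x ζ hζ
    have h5 : sInf {ζ | R κ x ζ} ∈ {ζ | R κ x ζ} := csInf_mem ⟨ζ, hζ⟩
    exact R_unique h1 h5 hζ
  refine ⟨β, hβ.1, fun x => sInf {ζ | R κ x ζ}, ?_, ?_, ?_⟩
  · intro x hx
    obtain ⟨ζ, h5, h6⟩ := hex x hx
    show sInf {ζ | R κ x ζ} < β
    rw [he x ζ h6]
    exact h5
  · intro x hx y hy hxy
    obtain ⟨ζ, h5, h6⟩ := hex x hx
    obtain ⟨ζ', h7, h8⟩ := hex y hy
    change sInf {ζ | R κ x ζ} = sInf {ζ | R κ y ζ} at hxy
    rw [he x ζ h6, he y ζ' h8] at hxy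
    rw [← hxy] at h8
    exact h1.1 _ _ _ _ h6 h8
  · refine HOD.intro _ (DP.od ?_) ?_
    · refine (DP.all (Q := fun z v => z ∈ v 0 ↔ ∃ x w, z = ZFSet.pair x w ∧
        w = w.rank.toZFSet ∧ R κ x w.rank) ?_).congr ?_
      · refine (DP.mem 0 1).iff ?_
        refine DP.ex (Q := fun x v => ∃ w, v 0 = ZFSet.pair x w ∧
          w = w.rank.toZFSet ∧ R κ x w.rank) ?_
        refine DP.ex (Q := fun w v => v 1 = ZFSet.pair (v 0) w ∧
          w = w.rank.toZFSet ∧ R κ (v 0) w.rank) ?_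
        exact (DP.pair 2 1 0).and ((DP.isOrd 0).and (dp_R h2 h3 κ 1 0))
      · intro v
        rw [ZFSet.ext_iff]
        refine forall_congr' fun z => iff_congr Iff.rfl ?_
        rw [mem_range]
        constructor
        · rintro ⟨⟨x, hx⟩, rfl⟩
          obtain ⟨ζ, h5, h6⟩ := hex x hx
          refine ⟨x, _, rfl, ?_, ?_⟩
          · rw [rank_toZFSet]
          · rw [rank_toZFSet]
            show R κ x (sInf {ζ | R κ x ζ})
            rw [he x ζ h6]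
            exact h6
        · rintro ⟨x, w, rfl, h5, h6⟩
          refine ⟨⟨x, mem_hodPow.2 ⟨h6.1.2.1, h6.1.1⟩⟩, ?_⟩
          show ZFSet.pair x (sInf {ζ | R κ x ζ}).toZFSet = ZFSet.pair x w
          rw [he x _ h6, ← h5]
    · intro y hy
      rw [mem_range] at hy
      obtain ⟨⟨x, hx⟩, rfl⟩ := hy
      obtain ⟨hx1, hx2⟩ := mem_hodPow.1 hx
      have h5 := hod_of_sub hx1 hx2
      have h6 := HOD_toZFSet (sInf {ζ | R κ x ζ})
      exact HOD_pair h5 h6 (dp_eq_HOD h5 0) (dp_eq_HOD h6 0)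

end Pool.Agent.Helper29.HM.PW
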