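import Pool.Agent.Helper73.HM.St

/-! # HM module NM: the ultrafilter of an atom is normal in HOD -/

namespace Pool.Agent.Helper29.HM.NM

open Ordinal Cardinal ZFSet Order Pool.Agent.Helper73.HODC Pool.Agent.Helper73.HE
open Pool.Agent.Helper73.HM

theorem mem_UA {lam : Ordinal.{0}} {A : Set Ordinal.{0}} {X : ZFSet.{0}} :
    X ∈ UA lam A ↔ X ∈ hodPow lam ∧ ¬ Stat {a | a ∈ A ∧ a ∉ st X} lam := by
  rw [UA, ZFSet.mem_sep]

theorem hod_UA (h2 : StUD) {A : Set Ordinal.{0}} (hA : DPs A) (lam : Ordinal.{0}) :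
    HOD (UA lam A) := by
  have h3 : DP (fun v => v 0 = UA (v 1).rank A) := h2 (fun _ => A) hA
  have h4 : DP (fun v => v 1 = UA (v 0).rank A) := h3.rename (fun n => if n = 0 then 1 else 0)
  have h5 : DP (fun v => v 0 = UA lam A) := dp_subst_at (Q := fun x v => v 0 = UA x A) h4 lam
  refine HOD.intro _ h5.od fun y hy => ?_
  have h6 := mem_hodPow.1 (mem_UA.1 hy).1
  exact hod_of_sub h6.1 h6.2

theorem eq_ordSet {x : ZFSet.{0}} {lam : Ordinal.{0}} (h : x ⊆ lam.toZFSet)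
    {A : Set Ordinal.{0}} (hA : ∀ a < lam, a ∈ st x ↔ a ∈ A) : x = ordSet lam A := by
  refine ext_st h (ordSet_sub lam A) fun a => ?_
  rw [mem_st_ordSet]
  constructor
  · intro h1
    have h2 := lt_of_mem_st h h1
    exact ⟨h2, (hA a h2).1 h1⟩
  · rintro ⟨h1, h2⟩
    exact (hA a h1).2 h2

theorem ordSet_mem {A : Set Ordinal.{0}} (h : DPs A) (lam : Ordinal.{0}) :
    ordSet lam A ∈ hodPow lam := mem_hodPow.2 ⟨ordSet_sub lam A, od_ordSet h lam⟩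

theorem inter_mem {lam : Ordinal.{0}} {X Y : ZFSet.{0}} (hX : X ∈ hodPow lam)
    (hY : Y ∈ hodPow lam) : X ∩ Y ∈ hodPow lam := by
  obtain ⟨h1, h2⟩ := mem_hodPow.1 hX
  obtain ⟨h3, h4⟩ := mem_hodPow.1 hY
  have h5 : X ∩ Y ⊆ lam.toZFSet := fun z hz => h1 (ZFSet.mem_inter.1 hz).1
  have h6 : X ∩ Y = ordSet lam (st X ∩ st Y) := by
    refine eq_ordSet h5 fun a _ => ?_
    rw [mem_st_iff h5, ZFSet.mem_inter, Set.mem_inter_iff, mem_st_iff h1, mem_st_iff h3]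
  rw [h6]
  refine ordSet_mem ?_ lam
  exact DP.and (dps_ordSet h1 h2) (dps_ordSet h3 h4)

theorem diff_mem {lam : Ordinal.{0}} {X : ZFSet.{0}} (hX : X ∈ hodPow lam) :
    lam.toZFSet \ X ∈ hodPow lam ∧ ∀ a < lam, a ∈ st (lam.toZFSet \ X) ↔ a ∉ st X := by
  obtain ⟨h1, h2⟩ := mem_hodPow.1 hX
  have h5 : lam.toZFSet \ X ⊆ lam.toZFSet := fun z hz => (ZFSet.mem_sdiff.1 hz).1
  have h7 : ∀ a < lam, a ∈ st (lam.toZFSet \ X) ↔ a ∉ st X := by
    intro a ha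
    rw [mem_st_iff h5, ZFSet.mem_sdiff, mem_st_iff h1]
    exact ⟨fun h => h.2, fun h => ⟨mem_toZFSet_iff.2 ⟨a, ha, rfl⟩, h⟩⟩
  have h6 : lam.toZFSet \ X = ordSet lam (st X)ᶜ := eq_ordSet h5 h7
  refine ⟨?_, h7⟩
  rw [h6]
  refine ordSet_mem ?_ lam
  exact DP.not (dps_ordSet h1 h2)

theorem st_mono {X Y : ZFSet.{0}} (h : X ⊆ Y) {a : Ordinal.{0}} (ha : a ∈ st X) : a ∈ st Y := by
  obtain ⟨z, hz, hz'⟩ := ha
  exact ⟨z, h hz, hz'⟩

theorem nm (_h1 : StHP) (h2 : StUD) : StNM := by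
  intro c A hc hc' hA hsub hat
  have hcof := reg_cof hc hc'
  have hlim := isSuccLimit_of_cof hcof
  refine ⟨hod_UA h2 hA _, fun X hX => (mem_UA.1 hX).1, ?_, ?_, ?_, ?_, ?_⟩
  · -- up
    intro X hX Y hY hXY
    rw [mem_UA] at hX ⊢
    exact ⟨hY, fun h => hX.2 (h.mono fun a ha _ => ⟨ha.1, fun h' => ha.2 (st_mono hXY h')⟩)⟩
  · -- inter
    intro X hX Y hY
    rw [mem_UA] at hX hY ⊢
    have hXY := inter_mem hX.1 hY.1
    refine ⟨hXY, fun h => ?_⟩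
    have hs := (mem_hodPow.1 hXY).1
    have hs1 := (mem_hodPow.1 hX.1).1
    have hs2 := (mem_hodPow.1 hY.1).1
    rcases stat_or hcof h (A := st X) with h3 | h3
    · refine hY.2 (h3.mono fun a ha _ => ⟨ha.1.1, fun h4 => ha.1.2 ?_⟩)
      rw [mem_st_iff hs, ZFSet.mem_inter]
      exact ⟨(mem_st_iff hs1).1 ha.2, (mem_st_iff hs2).1 h4⟩
    · exact hX.2 (h3.mono fun a ha _ => ⟨ha.1.1, ha.2⟩)
  · -- ultra
    intro X hX
    obtain ⟨hd, hd'⟩ := diff_mem hX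
    obtain ⟨hX1, hX2⟩ := mem_hodPow.1 hX
    rw [mem_UA, mem_UA]
    constructor
    · rintro ⟨-, h3⟩ ⟨-, h4⟩
      rcases stat_or hcof hat.1 (A := st X) with h5 | h5
      · exact h4 (h5.mono fun a ha hac => ⟨ha.1, fun h6 => (hd' a hac).1 h6 ha.2⟩)
      · exact h3 h5
    · intro h3
      refine ⟨hX, fun h4 => ?_⟩
      apply h3
      refine ⟨hd, fun h5 => ?_⟩
      refine hat.2 X hX2 hX1 ⟨?_, h4⟩
      refine h5.mono fun a ha hac => ⟨ha.1, ?_⟩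
      by_contra h6
      exact ha.2 ((hd' a hac).2 h6)
  · -- tail
    intro β hβ
    rw [mem_UA]
    refine ⟨ordSet_mem ?_ _, fun h => ?_⟩
    · exact (DP.rank_lt_ord 0 β).not.congr fun v => (not_lt (a := (v 0).rank) (b := β)).symm
    · obtain ⟨a, ha, h3, h4⟩ := h _ (club_Ioi hlim hβ)
      have h5 : β ≤ a := le_of_lt h3
      exact ha.2 (mem_st_ordSet.2 ⟨h4, h5⟩)
  · -- normal
    intro f hf X hX hr
    rw [mem_UA] at hX
    obtain ⟨hX1, hX2⟩ := mem_hodPow.1 hX.1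
    have hS : Stat {a | a ∈ A ∧ a ∈ st X} c.ord := by
      rcases stat_or hcof hat.1 (A := st X) with h5 | h5
      · exact h5
      · exact absurd h5 hX.2
    obtain ⟨η, hη, h3⟩ := fodor hc hc' hS (r := f) (fun a ha hac h0 =>
      hr a ((mem_st_iff hX1).1 ha.2) h0)
    have hDP : DPs {a | a < c.ord ∧ fn (graph c.ord f) a = η} := by
      change DP (fun v => (v 0).rank < c.ord ∧ fn (graph c.ord f) (v 0).rank = η)
      refine (DP.rank_lt_ord 0 c.ord).and ?_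
      refine dp_subst_HOD (Q := fun x v => fn x (v 0).rank = η) ?_ hf
      refine (DP.exO (Q := fun b v => b = η ∧ fn (v 0) (v 1).rank = b)
        ((DP.rank_eq_ord 0 η).and (DP.fn 1 2 0))).congr fun v => ?_
      constructor
      · intro h; exact ⟨η, rfl, h⟩
      · rintro ⟨b, rfl, h⟩; exact h
    have hB : ordSet c.ord {a | f a = η} = ordSet c.ord
        {a | a < c.ord ∧ fn (graph c.ord f) a = η} := by
      refine ext_st (ordSet_sub _ _) (ordSet_sub _ _) fun a => ?_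
      rw [mem_st_ordSet, mem_st_ordSet]
      constructor
      · rintro ⟨h4, h5⟩
        exact ⟨h4, h4, by rw [fn_graph h4]; exact h5⟩
      · rintro ⟨h4, -, h5⟩
        rw [fn_graph h4] at h5
        exact ⟨h4, h5⟩
    have hBm : ordSet c.ord {a | f a = η} ∈ hodPow c.ord := by
      rw [hB]
      exact ordSet_mem hDP _
    refine ⟨η, hη, ?_⟩
    rw [mem_UA]
    refine ⟨hBm, fun h4 => ?_⟩
    refine hat.2 _ (mem_hodPow.1 hBm).2 (mem_hodPow.1 hBm).1 ⟨?_, h4⟩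
    exact h3.mono fun a ha hac => ⟨ha.1.1, mem_st_ordSet.2 ⟨hac, ha.2⟩⟩

end Pool.Agent.Helper29.HM.NM
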